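import Pool.Agent.P8H99.GO.Fin
import Pool.Agent.P8H26.OD.Grd
import Pool.Agent.P8H4.GO.Str
import Pool.Agent.P8H44.OD.Grp
import Pool.Agent.P8H52.OD.Crd
import Pool.Agent.P8H52.OD.Lct
import Pool.Agent.P8H53.OD.Sev
import Pool.Agent.P8H54.OD.Blk
import Pool.Agent.P8H57.OD.Rem
import Pool.Agent.P8H61.OD.Unq
import Pool.Agent.P8H68.OD.Pth
import Pool.Agent.P8H69.OD.Key
import Pool.Agent.P8H73.OD.Fib
import Pool.Agent.P8H75.GO.Cnt
import Pool.Agent.P8H78.OD.Rng
import Pool.Agent.P8H82.OD.Lnm
import Pool.Agent.P8H94.OD.Five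
import Pool.Agent.P8H96.OD.Mul
import Pool.Agent.P8H96.OD.Six

/-!
# The number of labelled graded orders with `k ≥ 5` grade levels (MP_ac85ec_co, Q2)

For each fixed `k ≥ 5` the number `a_k(n)` of the partial orders on `{1, ..., n}` which are graded with exactly `k` grade
levels satisfies `log₂ a_k(n) = n²/4 + (1 - (k - 5)/2) n + O(log n)`. This is the assertion of the question Q2. (The
assertion of Q1 for `k = 4` is false, by the theorem `FourLevels` of the starting files.)

Proof. Upper bound: an order is determined by its grade map and its covers, so `a_k(n)` is at most the sum over the level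
sizes `n_1, ..., n_k ≥ 1` of the multinomial coefficient times `2^(n_1 n_2 + ... + n_(k-1) n_k)`. Each term is at most
`n^C 2^(n²/4 + (7 - k) n/2)`, by induction on `k`: if the first two or the last two levels have at most `log₂ n`
elements, the end is removed; if both ends are large and `k ≥ 7`, then the products missing from
`(∑ n_odd) (∑ n_even)` have a sum of size `n log n` at least; the cases `k = 5` and `k = 6` are treated directly.
Lower bound: the level sizes `1, n/4, n/2, n/4, 1, ..., 1`; the elements of the second level may or may not be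
above the element of the first level, almost all choices of the other covers give a connected order.

(Authors: helper99; packages by helper44, helper52, helper53, helper54, helper57, helper61, helper68, helper69, helper73,
helper75, helper78, helper82, helper94, helper96, helper26, helper4.)
-/

set_option autoImplicit false

namespace Pool.Agent.Results.MP_ac85ec_co.AtLeastFiveLevels

/-- `r` is a (reflexive) partial order on the ground set `Fin n`. -/
def IsOrder {n : ℕ} (r : Fin n → Fin n → Prop) : Prop :=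
  (∀ x, r x x) ∧ (∀ x y, r x y → r y x → x = y) ∧ (∀ x y z, r x y → r y z → r x z)

/-- The strict order `p < q`. -/
def Lt {n : ℕ} (r : Fin n → Fin n → Prop) (p q : Fin n) : Prop := r p q ∧ p ≠ q

/-- `q` covers `p`. -/
def Covers {n : ℕ} (r : Fin n → Fin n → Prop) (p q : Fin n) : Prop :=
  Lt r p q ∧ ¬ ∃ x, Lt r p x ∧ Lt r x q

/-- `g` is a normalised grade map: an order preserving map to the positive integers which increases by one along the
covers and takes the value `1` on every component of the comparability graph. -/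
structure IsGrade {n : ℕ} (r : Fin n → Fin n → Prop) (g : Fin n → ℕ) : Prop where
  pos : ∀ p, 1 ≤ g p
  mono : ∀ p q, r p q → g p ≤ g q
  step : ∀ p q, Covers r p q → g q = g p + 1
  norm : ∀ p, ∃ b, Relation.EqvGen r p b ∧ g b = 1

/-- `r` is a partial order that is graded with exactly `k` grade levels. -/
def GradedWithLevels (k : ℕ) {n : ℕ} (r : Fin n → Fin n → Prop) : Prop :=
  IsOrder r ∧ ∃ g : Fin n → ℕ, IsGrade r g ∧ (Set.range g).ncard = k

/-- The number `a_k(n)` of partial orders on an `n`-element ground set that are graded with exactly `k` grade levels. -/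
noncomputable def a (k n : ℕ) : ℕ :=
  Nat.card {r : Fin n → Fin n → Prop // GradedWithLevels k r}

lemma graded_iff (k n : ℕ) (r : Fin n → Fin n → Prop) : GradedWithLevels k r ↔
    Pool.Agent.Results.MP_ac85ec_co.FourLevels.GradedWithLevels k r :=
  ⟨fun ⟨h, g, hg, hk⟩ => ⟨h, g, ⟨hg.pos, hg.mono, hg.step, hg.norm⟩, hk⟩,
    fun ⟨h, g, hg, hk⟩ => ⟨h, g, ⟨hg.pos, hg.mono, hg.step, hg.norm⟩, hk⟩⟩

lemma a_eq (k n : ℕ) : a k n = Pool.Agent.Results.MP_ac85ec_co.FourLevels.a k n :=
  Nat.card_congr (Equiv.subtypeEquivRight (graded_iff k n))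

/-- **Question Q2, yes.** For each fixed `k ≥ 5` there are `C` and `n₀` such that for all `n ≥ n₀`
`|log₂ a_k(n) - (n²/4 + (1 - (k - 5)/2) n)| ≤ C log n`. -/
theorem result (k : ℕ) (hk : 5 ≤ k) : ∃ (C : ℝ) (n₀ : ℕ), ∀ n : ℕ, n₀ ≤ n →
    |Real.logb 2 (a k n) - ((n : ℝ) ^ 2 / 4 + (1 - ((k : ℝ) - 5) / 2) * n)| ≤ C * Real.log n := by
  simp_rw [a_eq]
  exact Pool.Agent.P8H99.GO.final Pool.Agent.P8H78.OD.rng Pool.Agent.P8H78.OD.inj Pool.Agent.P8H75.GO.cnt
    Pool.Agent.P8H73.OD.fib Pool.Agent.P8H68.OD.pth Pool.Agent.P8H44.OD.grp Pool.Agent.P8H96.OD.mul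
    Pool.Agent.P8H54.OD.blk Pool.Agent.P8H53.OD.sev Pool.Agent.P8H96.OD.Six.six Pool.Agent.P8H57.OD.rem
    Pool.Agent.P8H69.OD.key Pool.Agent.P8H94.OD.five Pool.Agent.P8H26.OD.grd Pool.Agent.P8H61.OD.unq
    Pool.Agent.P8H4.GO.str Pool.Agent.P8H52.OD.crd Pool.Agent.P8H52.OD.lct Pool.Agent.P8H82.OD.lnm k hk

end Pool.Agent.Results.MP_ac85ec_co.AtLeastFiveLevels
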